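import Mathlib

set_option autoImplicit false

/-!
Helper lemmas for the disproof of the statement that bounded clique-width of the 2-connected
prime members of a hereditary class forces bounded clique-width of the class.
-/

namespace Pool.Agent.LibMPb23e6d

/-- The closure conditions under the operations of `k`-expressions. -/
def Closed (k : ℕ) (P : Finset ℕ → SimpleGraph ℕ → (ℕ → Fin k) → Prop) : Prop :=
  (∀ ℓ₀ : ℕ → Fin k, P ∅ ⊥ ℓ₀) ∧
  (∀ (i : ℕ) (ℓ₀ : ℕ → Fin k), P {i} ⊥ ℓ₀) ∧
  (∀ (S₁ S₂ : Finset ℕ) (H₁ H₂ : SimpleGraph ℕ) (ℓ₁ ℓ₂ : ℕ → Fin k),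
    P S₁ H₁ ℓ₁ → P S₂ H₂ ℓ₂ → Disjoint S₁ S₂ →
    P (S₁ ∪ S₂) (H₁ ⊔ H₂) (fun v => if v ∈ S₁ then ℓ₁ v else ℓ₂ v)) ∧
  (∀ (S : Finset ℕ) (H : SimpleGraph ℕ) (ℓ₀ : ℕ → Fin k) (a b : Fin k),
    a ≠ b → P S H ℓ₀ →
    P S (H ⊔ SimpleGraph.fromRel
      (fun u v => u ∈ S ∧ v ∈ S ∧ ℓ₀ u = a ∧ ℓ₀ v = b)) ℓ₀) ∧
  (∀ (S : Finset ℕ) (H : SimpleGraph ℕ) (ℓ₀ : ℕ → Fin k) (a b : Fin k),
    P S H ℓ₀ → P S H (fun v => if ℓ₀ v = a then b else ℓ₀ v))

/-- `Γ` arises from the labelled graph `(S, H, ℓ)` by further operations. -/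
def Compat {k : ℕ} (Γ : SimpleGraph ℕ) (S : Finset ℕ) (H : SimpleGraph ℕ) (ℓ : ℕ → Fin k) :
    Prop :=
  (∀ x ∈ S, ∀ y ∈ S, ℓ x = ℓ y → ∀ z, z ∉ S → (Γ.Adj x z ↔ Γ.Adj y z)) ∧
  ∃ F : Fin k → Fin k → Prop, ∀ u ∈ S, ∀ v ∈ S, (Γ.Adj u v ↔ (H.Adj u v ∨ F (ℓ u) (ℓ v)))

/-- Few traces: `A` has at most `k` distinct neighbourhoods in its complement. -/
def Few (k : ℕ) (Γ : SimpleGraph ℕ) (A : Finset ℕ) : Prop :=
  ∃ c : ℕ → Fin k, ∀ x ∈ A, ∀ y ∈ A, c x = c y → ∀ z, z ∉ A → (Γ.Adj x z ↔ Γ.Adj y z)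

/-- The invariant used for the balanced node. -/
def Inv (k T : ℕ) (U : Finset ℕ) (Γ : SimpleGraph ℕ) (S : Finset ℕ) (H : SimpleGraph ℕ)
    (ℓ : ℕ → Fin k) : Prop :=
  (∀ u v, H.Adj u v → u ∈ S) ∧
  (Compat Γ S H ℓ → T ≤ (S ∩ U).card →
    ∃ A : Finset ℕ, T ≤ (A ∩ U).card ∧ (A ∩ U).card < 2 * T ∧ Few k Γ A)

theorem inv_closed (k T : ℕ) (hT : 2 ≤ T) (U : Finset ℕ) (Γ : SimpleGraph ℕ) :
    Closed k (Inv k T U Γ) := by
  refine ⟨?_, ?_, ?_, ?_, ?_⟩
  · intro ℓ₀
    refine ⟨by simp, ?_⟩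
    intro _ h
    simp at h
    omega
  · intro i ℓ₀
    refine ⟨by simp, ?_⟩
    intro _ h
    have h1 : (({i} : Finset ℕ) ∩ U).card ≤ ({i} : Finset ℕ).card :=
      Finset.card_le_card Finset.inter_subset_left
    simp at h1
    omega
  · rintro S₁ S₂ H₁ H₂ ℓ₁ ℓ₂ ⟨hs₁, h₁⟩ ⟨hs₂, h₂⟩ hd
    refine ⟨?_, ?_⟩
    · intro u v huv
      rcases huv with huv | huv
      · exact Finset.mem_union_left _ (hs₁ u v huv)
      · exact Finset.mem_union_right _ (hs₂ u v huv)
    · rintro ⟨hout, F, hF⟩ hw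
      by_cases hlt : ((S₁ ∪ S₂) ∩ U).card < 2 * T
      · exact ⟨S₁ ∪ S₂, hw, hlt, _, hout⟩
      · have hcard : ((S₁ ∪ S₂) ∩ U).card ≤ (S₁ ∩ U).card + (S₂ ∩ U).card := by
          rw [Finset.union_inter_distrib_right]
          exact Finset.card_union_le _ _
        have hd' : ∀ x, x ∈ S₂ → x ∉ S₁ := fun x hx hx' =>
          (Finset.disjoint_left.mp hd hx' hx)
        rcases Nat.lt_or_ge (S₁ ∩ U).card T with hl | hl
        · -- use S₂
          apply h₂ _ (by omega)
          refine ⟨?_, F, ?_⟩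
          · intro x hx y hy hxy z hz
            have hx1 := hd' x hx
            have hy1 := hd' y hy
            by_cases hz1 : z ∈ S₁
            · have e1 := hF x (Finset.mem_union_right _ hx) z (Finset.mem_union_left _ hz1)
              have e2 := hF y (Finset.mem_union_right _ hy) z (Finset.mem_union_left _ hz1)
              have n1 : ¬ (H₁ ⊔ H₂).Adj x z := by
                rintro (h | h)
                · exact hx1 (hs₁ _ _ h)
                · exact hz (hs₂ _ _ h.symm)
              have n2 : ¬ (H₁ ⊔ H₂).Adj y z := by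
                rintro (h | h)
                · exact hy1 (hs₁ _ _ h)
                · exact hz (hs₂ _ _ h.symm)
              rw [e1, e2]
              simp only [n1, n2, if_neg hx1, if_neg hy1, hxy]
            · refine hout x (Finset.mem_union_right _ hx) y (Finset.mem_union_right _ hy) ?_ z ?_
              · simp only [if_neg hx1, if_neg hy1, hxy]
              · simp [hz, hz1]
          · intro u hu v hv
            have hu1 := hd' u hu
            have hv1 := hd' v hv
            rw [hF u (Finset.mem_union_right _ hu) v (Finset.mem_union_right _ hv)]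
            have n1 : (H₁ ⊔ H₂).Adj u v ↔ H₂.Adj u v := by
              constructor
              · rintro (h | h)
                · exact absurd (hs₁ _ _ h) hu1
                · exact h
              · exact fun h => Or.inr h
            rw [n1]
            simp only [if_neg hu1, if_neg hv1]
        · apply h₁ _ hl
          refine ⟨?_, F, ?_⟩
          · intro x hx y hy hxy z hz
            by_cases hz2 : z ∈ S₂
            · have e1 := hF x (Finset.mem_union_left _ hx) z (Finset.mem_union_right _ hz2)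
              have e2 := hF y (Finset.mem_union_left _ hy) z (Finset.mem_union_right _ hz2)
              have n1 : ¬ (H₁ ⊔ H₂).Adj x z := by
                rintro (h | h)
                · exact hz (hs₁ _ _ h.symm)
                · exact hd' _ (hs₂ _ _ h) hx
              have n2 : ¬ (H₁ ⊔ H₂).Adj y z := by
                rintro (h | h)
                · exact hz (hs₁ _ _ h.symm)
                · exact hd' _ (hs₂ _ _ h) hy
              rw [e1, e2]
              simp only [n1, n2, if_pos hx, if_pos hy, hxy]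
            · refine hout x (Finset.mem_union_left _ hx) y (Finset.mem_union_left _ hy) ?_ z ?_
              · simp only [if_pos hx, if_pos hy, hxy]
              · simp [hz, hz2]
          · intro u hu v hv
            rw [hF u (Finset.mem_union_left _ hu) v (Finset.mem_union_left _ hv)]
            have n1 : (H₁ ⊔ H₂).Adj u v ↔ H₁.Adj u v := by
              constructor
              · rintro (h | h)
                · exact h
                · exact absurd hu (hd' _ (hs₂ _ _ h))
              · exact fun h => Or.inl h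
            rw [n1]
            simp only [if_pos hu, if_pos hv]
  · rintro S H ℓ₀ a b hab ⟨hs, h⟩
    refine ⟨?_, ?_⟩
    · intro u v huv
      rcases huv with huv | huv
      · exact hs u v huv
      · rw [SimpleGraph.fromRel_adj] at huv
        rcases huv.2 with h' | h'
        · exact h'.1
        · exact h'.2.1
    · rintro ⟨hout, F, hF⟩ hw
      refine h ⟨hout, fun c d => F c d ∨ (c = a ∧ d = b) ∨ (c = b ∧ d = a), ?_⟩ hw
      intro u hu v hv
      rw [hF u hu v hv, SimpleGraph.sup_adj, SimpleGraph.fromRel_adj]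
      constructor
      · rintro ((h1 | ⟨_, h1 | h1⟩) | h1)
        · exact Or.inl h1
        · exact Or.inr (Or.inr (Or.inl ⟨h1.2.2.1, h1.2.2.2⟩))
        · exact Or.inr (Or.inr (Or.inr ⟨h1.2.2.2, h1.2.2.1⟩))
        · exact Or.inr (Or.inl h1)
      · rintro (h1 | h1 | ⟨h1, h2⟩ | ⟨h1, h2⟩)
        · exact Or.inl (Or.inl h1)
        · exact Or.inr h1
        · refine Or.inl (Or.inr ⟨?_, Or.inl ⟨hu, hv, h1, h2⟩⟩)
          rintro rfl
          exact hab (h1.symm.trans h2)
        · refine Or.inl (Or.inr ⟨?_, Or.inr ⟨hv, hu, h2, h1⟩⟩)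
          rintro rfl
          exact hab (h2.symm.trans h1)
  · rintro S H ℓ₀ a b ⟨hs, h⟩
    refine ⟨hs, ?_⟩
    rintro ⟨hout, F, hF⟩ hw
    refine h ⟨?_, fun c d => F (if c = a then b else c) (if d = a then b else d), ?_⟩ hw
    · intro x hx y hy hxy z hz
      exact hout x hx y hy (by simp only [hxy]) z hz
    · intro u hu v hv
      exact hF u hu v hv

/-- A graph with a `k`-expression has a balanced vertex set with at most `k` traces outside. -/
theorem exists_balanced (k n T : ℕ) (hT : 2 ≤ T) (U : Finset ℕ) (Γ : SimpleGraph ℕ)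
    (hΓ : ∀ x y, Γ.Adj x y → x ∈ Finset.range n) (ℓ : ℕ → Fin k)
    (h : ∀ P : Finset ℕ → SimpleGraph ℕ → (ℕ → Fin k) → Prop, Closed k P →
      P (Finset.range n) Γ ℓ)
    (hU : T ≤ (Finset.range n ∩ U).card) :
    ∃ A : Finset ℕ, T ≤ (A ∩ U).card ∧ (A ∩ U).card < 2 * T ∧ Few k Γ A := by
  refine (h _ (inv_closed k T hT U Γ)).2 ⟨?_, fun _ _ => False, ?_⟩ hU
  · intro x _ y _ _ z hz
    constructor
    · intro h1
      exact absurd (hΓ _ _ h1.symm) hz
    · intro h1
      exact absurd (hΓ _ _ h1.symm) hz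
  · intro u _ v _
    simp

end Pool.Agent.LibMPb23e6d
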