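import Pool.Agent.Lib_MP_b23e6d.Unbounded

set_option autoImplicit false

namespace Pool.Agent.LibMPb23e6d

/-- The vertex encoding. -/
def enc (m : ℕ) : Fin m ⊕ Fin m × Fin m ≃ Fin (m + m * m) :=
  (Equiv.sumCongr (Equiv.refl _) finProdFinEquiv).trans finSumFinEquiv

/-- The vertex map from `Fin (m + m * m)` to the vertex set of `S`. -/
def vmap (m : ℕ) (x : Fin (m + m * m)) : ℕ ⊕ ℕ × ℕ :=
  Sum.map Fin.val (Prod.map Fin.val Fin.val) ((enc m).symm x)

theorem vmap_injective (m : ℕ) : Function.Injective (vmap m) := by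
  intro x y h
  unfold vmap at h
  have h1 : Function.Injective (Sum.map (Fin.val : Fin m → ℕ)
      (Prod.map (Fin.val : Fin m → ℕ) (Fin.val : Fin m → ℕ))) :=
    Function.Injective.sumMap Fin.val_injective
      (Function.Injective.prodMap Fin.val_injective Fin.val_injective)
  exact (enc m).symm.injective (h1 h)

/-- The finite split graph with `m` clique vertices. -/
def Sfin (m : ℕ) : SimpleGraph (Fin (m + m * m)) := S.comap (vmap m)

theorem unbounded (k : ℕ) : ∃ (n : ℕ) (G : SimpleGraph (Fin n)), Nonempty (G ↪g S) ∧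
    ¬ ∃ ℓ : ℕ → Fin k, ∀ P : Finset ℕ → SimpleGraph ℕ → (ℕ → Fin k) → Prop, Closed k P →
      P (Finset.range n) (G.map Fin.valEmbedding) ℓ := by
  classical
  let T := 3 * k + 2
  let m := 3 * T
  refine ⟨m + m * m, Sfin m, ⟨SimpleGraph.Embedding.comap ⟨vmap m, vmap_injective m⟩ S⟩, ?_⟩
  rintro ⟨ℓ, hℓ⟩
  let u : ℕ → ℕ := fun l => if h : l < m then (enc m (Sum.inl ⟨l, h⟩)).val else 0
  let y : ℕ → ℕ → ℕ := fun j i => if h : j < m ∧ i < m then
    (enc m (Sum.inr (⟨j, h.1⟩, ⟨i, h.2⟩))).val else 0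
  have hu1 : ∀ l (h : l < m), u l = (enc m (Sum.inl ⟨l, h⟩)).val := by
    intro l h
    simp only [u, dif_pos h]
  have hy1 : ∀ j i (hj : j < m) (hi : i < m),
      y j i = (enc m (Sum.inr (⟨j, hj⟩, ⟨i, hi⟩))).val := by
    intro j i hj hi
    simp only [y, dif_pos (And.intro hj hi)]
  have hinj : Set.InjOn u (Finset.range m : Finset ℕ) := by
    intro a ha b hb hab
    have ha' : a < m := by simpa using ha
    have hb' : b < m := by simpa using hb
    rw [hu1 a ha', hu1 b hb'] at hab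
    have := (enc m).injective (Fin.val_injective hab)
    simpa using this
  have hadj : ∀ l < m, ∀ j < m, ∀ i < m,
      (((Sfin m).map Fin.valEmbedding).Adj (u l) (y j i) ↔ (l = j ∨ i ≤ l)) := by
    intro l hl j hj i hi
    rw [hu1 l hl, hy1 j i hj hi]
    have e1 : ∀ a b : Fin (m + m * m),
        ((Sfin m).map Fin.valEmbedding).Adj a.val b.val ↔ (Sfin m).Adj a b :=
      fun a b => (SimpleGraph.Embedding.map Fin.valEmbedding (Sfin m)).map_rel_iff (a := a) (b := b)
    rw [e1]
    show S.Adj (vmap m _) (vmap m _) ↔ _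
    have e2 : vmap m (enc m (Sum.inl ⟨l, hl⟩)) = Sum.inl l := by
      simp [vmap]
    have e3 : vmap m (enc m (Sum.inr (⟨j, hj⟩, ⟨i, hi⟩))) = Sum.inr (j, i) := by
      simp [vmap]
    rw [e2, e3]
    rfl
  have hsub : (Finset.range m).image u ⊆ Finset.range (m + m * m) := by
    intro x hx
    simp only [Finset.mem_image, Finset.mem_range] at hx ⊢
    obtain ⟨l, hl, rfl⟩ := hx
    rw [hu1 l hl]
    exact (enc m (Sum.inl ⟨l, hl⟩)).isLt
  have hcardU : ((Finset.range m).image u).card = m := by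
    rw [Finset.card_image_of_injOn hinj, Finset.card_range]
  have hΓ : ∀ x z, ((Sfin m).map Fin.valEmbedding).Adj x z → x ∈ Finset.range (m + m * m) := by
    intro x z h
    rw [SimpleGraph.map_adj] at h
    obtain ⟨a, b, _, rfl, _⟩ := h
    exact Finset.mem_range.mpr a.isLt
  have hTm : T ≤ (Finset.range (m + m * m) ∩ (Finset.range m).image u).card := by
    rw [Finset.inter_eq_right.mpr hsub, hcardU]
    show T ≤ 3 * T
    omega
  obtain ⟨A, hA1, hA2, hA3⟩ := exists_balanced k (m + m * m) T (by show 2 ≤ 3 * k + 2; omega)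
    ((Finset.range m).image u) _ hΓ ℓ hℓ hTm
  exact no_balanced k m T le_rfl le_rfl _ u y hinj hadj A hA1 hA2 hA3

end Pool.Agent.LibMPb23e6d
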