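import Pool.Agent.Lib_MP_b23e6d.Basic

set_option autoImplicit false

namespace Pool.Agent.LibMPb23e6d

/-- Adjacency of the infinite split graph: `u_l` (left summand) form a clique, the vertices
`y_(j,i)` (right summand) are independent, and `y_(j,i)` is adjacent to `u_j` and to all `u_l`
with `l ≥ i`. -/
def sAdj : ℕ ⊕ ℕ × ℕ → ℕ ⊕ ℕ × ℕ → Prop
  | Sum.inl a, Sum.inl b => a ≠ b
  | Sum.inl l, Sum.inr p => l = p.1 ∨ p.2 ≤ l
  | Sum.inr p, Sum.inl l => l = p.1 ∨ p.2 ≤ l
  | Sum.inr _, Sum.inr _ => False

/-- The infinite split graph. -/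
def S : SimpleGraph (ℕ ⊕ ℕ × ℕ) where
  Adj := sAdj
  symm := by
    refine ⟨?_⟩
    rintro (a | p) (b | q) h
    · exact Ne.symm h
    · exact h
    · exact h
    · exact h
  loopless := by
    refine ⟨?_⟩
    rintro (a | p) h
    · exact h rfl
    · exact h

/-- No finite induced subgraph of `S` is both 2-connected and prime. -/
theorem not_two_connected_prime (n : ℕ) (G : SimpleGraph (Fin n)) (φ : G ↪g S)
    (hn : 3 ≤ n) (hc : G.Connected) (h2 : ∀ v : Fin n, (G.induce {w | w ≠ v}).Connected)
    (hp : ∀ M : Set (Fin n),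
        (∀ x, x ∉ M → ∀ y ∈ M, ∀ z ∈ M, (G.Adj x y ↔ G.Adj x z)) →
        M.Subsingleton ∨ M = Set.univ) : False := by
  classical
  -- every vertex has a neighbour different from any given vertex
  have hnb : ∀ v w : Fin n, v ≠ w → ∃ x, x ≠ w ∧ G.Adj v x := by
    intro v w hvw
    -- there is a third vertex
    obtain ⟨t, htv, htw⟩ : ∃ t : Fin n, t ≠ v ∧ t ≠ w := by
      by_contra hcon
      push Not at hcon
      have hsub : (Finset.univ : Finset (Fin n)) ⊆ {v, w} := by
        intro t _
        by_cases h : t = v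
        · simp [h]
        · simp [hcon t h]
      have := Finset.card_le_card hsub
      have h3 : ({v, w} : Finset (Fin n)).card ≤ 2 := Finset.card_le_two
      simp at this
      omega
    have hconn := h2 w
    have hreach := hconn.preconnected ⟨v, hvw⟩ ⟨t, htw⟩
    obtain ⟨p⟩ := hreach
    cases p with
    | nil => exact absurd rfl htv
    | @cons _ x _ hadj _ => exact ⟨x.1, x.2, hadj⟩
  have hnb2 : ∀ v : Fin n, ∃ x y, x ≠ y ∧ G.Adj v x ∧ G.Adj v y := by
    intro v
    obtain ⟨w, hw⟩ : ∃ w : Fin n, v ≠ w := by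
      by_contra hcon
      push Not at hcon
      have h0 := hcon ⟨0, by omega⟩
      have h1 := hcon ⟨1, by omega⟩
      rw [h0] at h1
      simp at h1
    obtain ⟨x, hxw, hx⟩ := hnb v w hw
    obtain ⟨y, hyx, hy⟩ := hnb v x hx.ne
    exact ⟨x, y, hyx.symm, hx, hy⟩
  -- the set of indices of clique vertices
  let L : Finset (Fin n) := Finset.univ.filter (fun v => ∃ l, φ v = Sum.inl l)
  let idx : Fin n → ℕ := fun v => Sum.elim id (fun _ => 0) (φ v)
  have hL : L.Nonempty := by
    obtain ⟨x, y, _, hx, _⟩ := hnb2 ⟨0, by omega⟩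
    have hadj : S.Adj (φ ⟨0, by omega⟩) (φ x) := φ.map_rel_iff.mpr hx
    rcases h0 : φ ⟨0, by omega⟩ with a | p
    · exact ⟨⟨0, by omega⟩, by simp only [L, Finset.mem_filter, Finset.mem_univ, true_and]; exact ⟨a, h0⟩⟩
    · rcases h1 : φ x with b | q
      · exact ⟨x, by simp only [L, Finset.mem_filter, Finset.mem_univ, true_and]; exact ⟨b, h1⟩⟩
      · rw [h0, h1] at hadj
        exact hadj.elim
  obtain ⟨v, hvL, hmax⟩ := Finset.exists_max_image L idx hL
  simp only [L, Finset.mem_filter, Finset.mem_univ, true_and] at hvL hmax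
  obtain ⟨l, hl⟩ := hvL
  have hidx : idx v = l := by simp [idx, hl]
  have hdom : ∀ x, x ≠ v → G.Adj v x := by
    intro x hx
    rw [← φ.map_rel_iff, hl]
    rcases hxφ : φ x with b | q
    · intro hlb
      apply hx
      apply φ.injective
      rw [hl, hxφ, hlb]
    · -- x is an independent vertex, with two neighbours
      obtain ⟨y, z, hyz, hy, hz⟩ := hnb2 x
      have hy' : S.Adj (φ x) (φ y) := φ.map_rel_iff.mpr hy
      have hz' : S.Adj (φ x) (φ z) := φ.map_rel_iff.mpr hz
      rw [hxφ] at hy' hz'
      rcases hyφ : φ y with a | r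
      · rcases hzφ : φ z with b | r
        · rw [hyφ] at hy'
          rw [hzφ] at hz'
          have hab : a ≠ b := by
            intro hab
            apply hyz
            apply φ.injective
            rw [hyφ, hzφ, hab]
          have ha : a ≤ l := by
            have := hmax y ⟨a, hyφ⟩
            rw [hidx] at this
            simpa [idx, hyφ] using this
          have hb : b ≤ l := by
            have := hmax z ⟨b, hzφ⟩
            rw [hidx] at this
            simpa [idx, hzφ] using this
          have hy2 : a = q.1 ∨ q.2 ≤ a := hy'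
          have hz2 : b = q.1 ∨ q.2 ≤ b := hz'
          show l = q.1 ∨ q.2 ≤ l
          right
          rcases hy2 with h1 | h1
          · rcases hz2 with h3 | h3
            · exact absurd (h1.trans h3.symm) hab
            · omega
          · omega
        · rw [hzφ] at hz'
          exact hz'.elim
      · rw [hyφ] at hy'
        exact hy'.elim
  rcases hp {x | x ≠ v} (by
    intro x hx y hy z hz
    simp only [Set.mem_ofPred_eq, ne_eq, not_not] at hx hy hz
    subst hx
    exact ⟨fun _ => hdom z hz, fun _ => hdom y hy⟩) with h | h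
  · obtain ⟨x, y, hxy, hx, hy⟩ := hnb2 v
    exact hxy (h hx.ne.symm hy.ne.symm)
  · have : v ∈ ({x | x ≠ v} : Set (Fin n)) := by rw [h]; trivial
    exact this rfl

end Pool.Agent.LibMPb23e6d
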