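import Pool.Agent.Lib_MP_b23e6d.Graph

set_option autoImplicit false

namespace Pool.Agent.LibMPb23e6d

/-- A finite set of size more than `k` cannot be injectively labelled by `k` labels. -/
theorem card_le_of_labels {k : ℕ} {α : Type*} (X : Finset α) (c : α → Fin k)
    (h : ∀ x ∈ X, ∀ y ∈ X, c x = c y → x = y) : X.card ≤ k := by
  have h1 : X.card ≤ (Finset.univ : Finset (Fin k)).card :=
    Finset.card_le_card_of_injOn c (fun _ _ => Finset.mem_univ _)
      (fun x hx y hy hxy => h x hx y hy hxy)
  simpa using h1

/-- The combinatorial core: a graph containing the split graph with `m ≥ 3T`, `T ≥ 3k+2`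
clique vertices has no balanced vertex set with at most `k` traces outside. -/
theorem no_balanced (k m T : ℕ) (hT : 3 * k + 2 ≤ T) (hm : 3 * T ≤ m) (Γ : SimpleGraph ℕ)
    (u : ℕ → ℕ) (y : ℕ → ℕ → ℕ) (hu : Set.InjOn u (Finset.range m : Finset ℕ))
    (hadj : ∀ l < m, ∀ j < m, ∀ i < m, (Γ.Adj (u l) (y j i) ↔ (l = j ∨ i ≤ l)))
    (A : Finset ℕ) (h1 : T ≤ (A ∩ (Finset.range m).image u).card)
    (h2 : (A ∩ (Finset.range m).image u).card < 2 * T) (h3 : Few k Γ A) : False := by
  classical
  obtain ⟨c, hc⟩ := h3
  let P : Finset ℕ := (Finset.range m).filter (fun l => u l ∈ A)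
  let Q : Finset ℕ := (Finset.range m).filter (fun l => u l ∉ A)
  have hPm : ∀ l ∈ P, l < m ∧ u l ∈ A := by
    intro l hl
    simpa [P] using hl
  have hQm : ∀ l ∈ Q, l < m ∧ u l ∉ A := by
    intro l hl
    simpa [Q] using hl
  have hPcard : P.card = (A ∩ (Finset.range m).image u).card := by
    have : A ∩ (Finset.range m).image u = P.image u := by
      ext x
      simp only [Finset.mem_inter, Finset.mem_image, Finset.mem_range, P, Finset.mem_filter]
      constructor
      · rintro ⟨hx, l, hl, rfl⟩
        exact ⟨l, ⟨hl, hx⟩, rfl⟩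
      · rintro ⟨l, ⟨hl, hx⟩, rfl⟩
        exact ⟨hx, l, hl, rfl⟩
    rw [this, Finset.card_image_of_injOn]
    intro a ha b hb hab
    exact hu (by simpa using (hPm a ha).1) (by simpa using (hPm b hb).1) hab
  have hPQ : P.card + Q.card = m := by
    have := Finset.card_filter_add_card_filter_not (s := Finset.range m) (fun l => u l ∈ A)
    simpa [P, Q] using this
  -- Claim 1
  have c1 : ∀ i < m, (Q.filter (fun j => j < i ∧ y j i ∈ A)).card ≤ k := by
    intro i hi
    apply card_le_of_labels _ (fun j => c (y j i))
    intro j hj j' hj' hjj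
    simp only [Finset.mem_filter] at hj hj'
    by_contra hne
    have hjm := hQm j hj.1
    have hjm' := hQm j' hj'.1
    have := hc _ hj.2.2 _ hj'.2.2 hjj (u j) hjm.2
    rw [SimpleGraph.adj_comm, hadj j hjm.1 j hjm.1 i hi, SimpleGraph.adj_comm,
      hadj j hjm.1 j' hjm'.1 i hi] at this
    have h5 := this.1 (Or.inl rfl)
    omega
  -- Claim 2
  have c2 : ∀ i < m, (P.filter (fun j => j < i ∧ y j i ∉ A)).card ≤ k := by
    intro i hi
    apply card_le_of_labels _ (fun j => c (u j))
    intro j hj j' hj' hjj
    simp only [Finset.mem_filter] at hj hj'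
    by_contra hne
    have hjm := hPm j hj.1
    have hjm' := hPm j' hj'.1
    have := hc _ hjm.2 _ hjm'.2 hjj (y j i) hj.2.2
    rw [hadj j hjm.1 j hjm.1 i hi, hadj j' hjm'.1 j hjm.1 i hi] at this
    have h5 := this.1 (Or.inl rfl)
    omega
  -- existence
  have e1 : ∀ i < m, k < (P.filter (fun j => j < i)).card → ∃ j ∈ P, j < i ∧ y j i ∈ A := by
    intro i hi hk
    by_contra hcon
    push Not at hcon
    have : P.filter (fun j => j < i) ⊆ P.filter (fun j => j < i ∧ y j i ∉ A) := by
      intro j hj
      simp only [Finset.mem_filter] at hj ⊢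
      exact ⟨hj.1, hj.2, hcon j hj.1 hj.2⟩
    have := Finset.card_le_card this
    have := c2 i hi
    omega
  have e2 : ∀ i < m, k < (Q.filter (fun j => j < i)).card → ∃ j ∈ Q, j < i ∧ y j i ∉ A := by
    intro i hi hk
    by_contra hcon
    push Not at hcon
    have : Q.filter (fun j => j < i) ⊆ Q.filter (fun j => j < i ∧ y j i ∈ A) := by
      intro j hj
      simp only [Finset.mem_filter] at hj ⊢
      exact ⟨hj.1, hj.2, hcon j hj.1 hj.2⟩
    have := Finset.card_le_card this
    have := c1 i hi
    omega
  -- Claim 3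
  have c3 : (Q.filter (fun i => k < (P.filter (fun j => j < i)).card)).card ≤ k := by
    have hch : ∀ i : ℕ, ∃ j : ℕ, i ∈ Q.filter (fun i => k < (P.filter (fun j => j < i)).card) →
        (j ∈ P ∧ j < i ∧ y j i ∈ A) := by
      intro i
      by_cases hi : i ∈ Q.filter (fun i => k < (P.filter (fun j => j < i)).card)
      · obtain ⟨j, hj⟩ := e1 i (hQm i (Finset.mem_filter.mp hi).1).1 (Finset.mem_filter.mp hi).2
        exact ⟨j, fun _ => hj⟩
      · exact ⟨0, fun h => absurd h hi⟩
    choose f hf using hch
    apply card_le_of_labels _ (fun i => c (y (f i) i))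
    have key : ∀ i ∈ Q.filter (fun i => k < (P.filter (fun j => j < i)).card),
        ∀ i' ∈ Q.filter (fun i => k < (P.filter (fun j => j < i)).card),
        c (y (f i) i) = c (y (f i') i') → i < i' → False := by
      intro i hi i' hi' hcc hlt
      have hfi := hf i hi
      have hfi' := hf i' hi'
      have hiQ := hQm i (Finset.mem_filter.mp hi).1
      have hiQ' := hQm i' (Finset.mem_filter.mp hi').1
      have hjP := hPm _ hfi.1
      have hjP' := hPm _ hfi'.1
      have := hc _ hfi.2.2 _ hfi'.2.2 hcc (u i) hiQ.2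
      rw [SimpleGraph.adj_comm, hadj i hiQ.1 (f i) hjP.1 i hiQ.1, SimpleGraph.adj_comm,
        hadj i hiQ.1 (f i') hjP'.1 i' hiQ'.1] at this
      have h5 := this.1 (Or.inr le_rfl)
      rcases h5 with h5 | h5
      · rw [← h5] at hjP'
        exact hiQ.2 hjP'.2
      · omega
    intro i hi i' hi' hcc
    rcases lt_trichotomy i i' with h | h | h
    · exact (key i hi i' hi' hcc h).elim
    · exact h
    · exact (key i' hi' i hi hcc.symm h).elim
  -- Claim 4
  have c4 : (P.filter (fun i => k < (Q.filter (fun j => j < i)).card)).card ≤ k := by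
    have hch : ∀ i : ℕ, ∃ j : ℕ, i ∈ P.filter (fun i => k < (Q.filter (fun j => j < i)).card) →
        (j ∈ Q ∧ j < i ∧ y j i ∉ A) := by
      intro i
      by_cases hi : i ∈ P.filter (fun i => k < (Q.filter (fun j => j < i)).card)
      · obtain ⟨j, hj⟩ := e2 i (hPm i (Finset.mem_filter.mp hi).1).1 (Finset.mem_filter.mp hi).2
        exact ⟨j, fun _ => hj⟩
      · exact ⟨0, fun h => absurd h hi⟩
    choose f hf using hch
    apply card_le_of_labels _ (fun i => c (u i))
    have key : ∀ i ∈ P.filter (fun i => k < (Q.filter (fun j => j < i)).card),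
        ∀ i' ∈ P.filter (fun i => k < (Q.filter (fun j => j < i)).card),
        c (u i) = c (u i') → i < i' → False := by
      intro i hi i' hi' hcc hlt
      have hfi' := hf i' hi'
      have hiP := hPm i (Finset.mem_filter.mp hi).1
      have hiP' := hPm i' (Finset.mem_filter.mp hi').1
      have hjQ' := hQm _ hfi'.1
      have := hc _ hiP.2 _ hiP'.2 hcc (y (f i') i') hfi'.2.2
      rw [hadj i hiP.1 (f i') hjQ'.1 i' hiP'.1, hadj i' hiP'.1 (f i') hjQ'.1 i' hiP'.1] at this
      have h5 := this.2 (Or.inr le_rfl)
      rcases h5 with h5 | h5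
      · rw [← h5] at hjQ'
        exact hjQ'.2 hiP.2
      · omega
    intro i hi i' hi' hcc
    rcases lt_trichotomy i i' with h | h | h
    · exact (key i hi i' hi' hcc h).elim
    · exact h
    · exact (key i' hi' i hi hcc.symm h).elim
  -- at i = 2k+1, one of the two counts exceeds k
  have hsum : (P.filter (fun j => j < 2 * k + 1)).card + (Q.filter (fun j => j < 2 * k + 1)).card
      = 2 * k + 1 := by
    have e : Finset.range (2 * k + 1) =
        P.filter (fun j => j < 2 * k + 1) ∪ Q.filter (fun j => j < 2 * k + 1) := by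
      ext x
      simp only [Finset.mem_range, Finset.mem_union, Finset.mem_filter, P, Q]
      constructor
      · intro hx
        by_cases hxA : u x ∈ A
        · exact Or.inl ⟨⟨by omega, hxA⟩, hx⟩
        · exact Or.inr ⟨⟨by omega, hxA⟩, hx⟩
      · rintro (h | h)
        · exact h.2
        · exact h.2
    have hd : Disjoint (P.filter (fun j => j < 2 * k + 1)) (Q.filter (fun j => j < 2 * k + 1)) := by
      rw [Finset.disjoint_left]
      intro x hx hx'
      exact (hQm x (Finset.mem_filter.mp hx').1).2 (hPm x (Finset.mem_filter.mp hx).1).2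
    have := congrArg Finset.card e
    rw [Finset.card_union_of_disjoint hd, Finset.card_range] at this
    exact this.symm
  have split : ∀ X : Finset ℕ, X.card = (X.filter (fun j => j < 2 * k + 1)).card +
      (X.filter (fun j => ¬ j < 2 * k + 1)).card := by
    intro X
    exact (Finset.card_filter_add_card_filter_not (s := X) (fun j => j < 2 * k + 1)).symm
  have mono : ∀ X : Finset ℕ, ∀ i, 2 * k + 1 ≤ i →
      (X.filter (fun j => j < 2 * k + 1)).card ≤ (X.filter (fun j => j < i)).card := by
    intro X i hi
    apply Finset.card_le_card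
    intro x hx
    simp only [Finset.mem_filter] at hx ⊢
    exact ⟨hx.1, by omega⟩
  rcases Nat.lt_or_ge k (P.filter (fun j => j < 2 * k + 1)).card with hk | hk
  · have hsub : Q.filter (fun j => ¬ j < 2 * k + 1) ⊆
        Q.filter (fun i => k < (P.filter (fun j => j < i)).card) := by
      intro x hx
      simp only [Finset.mem_filter] at hx ⊢
      exact ⟨hx.1, lt_of_lt_of_le hk (mono P x (by omega))⟩
    have h6 := Finset.card_le_card hsub
    have h7 := split Q
    omega
  · have hk' : k < (Q.filter (fun j => j < 2 * k + 1)).card := by omega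
    have hsub : P.filter (fun j => ¬ j < 2 * k + 1) ⊆
        P.filter (fun i => k < (Q.filter (fun j => j < i)).card) := by
      intro x hx
      simp only [Finset.mem_filter] at hx ⊢
      exact ⟨hx.1, lt_of_lt_of_le hk' (mono Q x (by omega))⟩
    have h6 := Finset.card_le_card hsub
    have h7 := split P
    omega

end Pool.Agent.LibMPb23e6d
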